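import Pool.Agent.Lib.MP_f251fc_ag.Final

/-!
# Lyubeznik numbers in mixed characteristic of Cohen-Macaulay rings

Let `R` be a Cohen-Macaulay local ring of dimension `d`, let `V` be a discrete valuation ring whose maximal
ideal is generated by the prime number `p`, and let `S = V⟦x_1, …, x_m⟧`, of dimension `n = m + 1`, map onto the
completion of `R`, with kernel `I`.  Then for all `i` and all `j ≤ n` the module
`Ext^i_S(K, H^(n - j)_I(S))`, `K` the residue field of `S`, has length `1` if `i = j = d` and is zero
otherwise.  In particular the highest Lyubeznik number is `1`.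
-/

set_option autoImplicit false

namespace Pool.Agent.Results.MP_f251fc_ag.CohenMacaulay

open IsLocalRing Pool.Agent.Lib.MP_f251fc_ag

universe u v

theorem result (p : ℕ) [Fact p.Prime] (V : Type u) [CommRing V] [IsDomain V]
    [IsDiscreteValuationRing V] (hV : maximalIdeal V = Ideal.span {(p : V)}) (m : ℕ)
    {R : Type v} [CommRing R] [IsLocalRing R] [IsNoetherianRing R] {d : ℕ} (hR : IsCM R d)
    (π : MvPowerSeries (Fin m) V →+* AdicCompletion (maximalIdeal R) R)
    (hπ : Function.Surjective π) (i j : ℕ) (hj : j ≤ m + 1) :
    lyubeznik (MvPowerSeries (Fin m) V) (RingHom.ker π) (m + 1) i j =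
      if i = d ∧ j = d then 1 else 0 :=
  lyubeznik_of_isCM p V hV m hR π hπ i j hj

end Pool.Agent.Results.MP_f251fc_ag.CohenMacaulay
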